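import Pool.Agent.Helper32.Sys.Main
import Pool.Agent.Helper89.Bridged.PacketB

/-!
# Coarse embeddability of uniformly locally finite systolic complexes

Question 1 of `MP_e4602c_al`.  Simplicial complexes, flag complexes, links, full cycles, simple
connectedness, systolic complexes and uniform local finiteness are defined literally in
`Pool.Agent.Helper32.Sys.Defs`.
-/

set_option autoImplicit false

open Filter
open scoped NNReal

namespace Pool.Agent.Results.MP_e4602c_al.SystolicCoarse

open Pool.Agent.Helper32

/-- The map `f` from the set `V` with the distance function `d` to a normed space is a coarse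
embedding: there are nondecreasing `ρm, ρp : [0, ∞) → [0, ∞)` with `ρm t → ∞` as `t → ∞` and
`ρm (d x y) ≤ ‖f x - f y‖ ≤ ρp (d x y)`. -/
def CoarseEmbedding {V H : Type} [NormedAddCommGroup H] (d : V → V → ℝ≥0) (f : V → H) : Prop :=
  ∃ ρm ρp : ℝ≥0 → ℝ≥0, Monotone ρm ∧ Monotone ρp ∧ Tendsto ρm atTop atTop ∧
    ∀ x y : V, (ρm (d x y) : ℝ) ≤ ‖f x - f y‖ ∧ ‖f x - f y‖ ≤ ρp (d x y)

/-- The vertex set of every uniformly locally finite systolic complex, with the path metric of
the 1-skeleton, admits a coarse embedding into a real Hilbert space. -/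
theorem result (V : Type) (X : Sys.Complex V) (hX : X.Systolic)
    (hN : X.UniformlyLocallyFinite) :
    ∃ (H : Type) (_ : NormedAddCommGroup H) (_ : InnerProductSpace ℝ H) (_ : CompleteSpace H)
      (f : V → H), CoarseEmbedding (fun x y : V => (X.skel.dist x y : ℝ≥0)) f := by
  obtain ⟨H, i1, i2, i3, f, ρm, ρp, hm, hp, ht, h⟩ :=
    Pool.Agent.Helper89.Bridged.coarse_of_reiter X.skel hX.connected (Sys.Complex.reiter hX hN)
  refine ⟨H, i1, i2, i3, f, fun t => (ρm t).toNNReal, fun t => (ρp t).toNNReal, ?_, ?_, ?_, ?_⟩
  · intro a b hab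
    exact Real.toNNReal_le_toNNReal (hm (NNReal.coe_le_coe.2 hab))
  · intro a b hab
    exact Real.toNNReal_le_toNNReal (hp (NNReal.coe_le_coe.2 hab))
  · exact tendsto_real_toNNReal_atTop.comp (ht.comp (NNReal.tendsto_coe_atTop.2 tendsto_id))
  · intro x y
    have h1 := (h x y).1
    have h2 := (h x y).2
    constructor
    · rw [Real.coe_toNNReal']
      refine max_le ?_ (norm_nonneg _)
      simpa using h1
    · rw [Real.coe_toNNReal']
      refine le_trans ?_ (le_max_left _ _)
      simpa using h2

end Pool.Agent.Results.MP_e4602c_al.SystolicCoarse
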