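import Pool.Agent.Helper32.Sys.Main

/-!
# Property A for uniformly locally finite systolic complexes

Question 2 of `MP_e4602c_al`.  Simplicial complexes, flag complexes, links, full cycles, simple
connectedness, systolic complexes and uniform local finiteness are defined literally in
`Pool.Agent.Helper32.Sys.Defs`.
-/

set_option autoImplicit false

namespace Pool.Agent.Results.MP_e4602c_al.SystolicPropertyA

open Pool.Agent.Helper32

/-- Property A of Yu for a set `V` with the distance function `d`, as stated in the problem. -/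
def PropertyA {V : Type} (d : V → V → ℝ) : Prop :=
  ∀ R ε : ℝ, 0 < R → 0 < ε → ∃ S : ℝ, 0 < S ∧ ∃ ξ : V → lp (fun _ : V => ℝ) 1,
    (∀ y, ‖ξ y‖ = 1) ∧
    (∀ y w, (ξ y : V → ℝ) w ≠ 0 → d y w ≤ S) ∧
    (∀ y z, d y z ≤ R → ‖ξ y - ξ z‖ ≤ ε)

/-- The vertex set of every uniformly locally finite systolic complex, with the path metric of
the 1-skeleton, has Property A. -/
theorem result (V : Type) (X : Sys.Complex V) (hX : X.Systolic)
    (hN : X.UniformlyLocallyFinite) :
    PropertyA (fun x y : V => (X.skel.dist x y : ℝ)) := by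
  intro R ε hR hε
  have hR1 : 0 < R + 1 := by linarith
  obtain ⟨S, ξ, h0, h1, h2, h3⟩ := Sys.Complex.reiter hX hN (ε / (R + 1)) (by positivity)
  refine ⟨S + 1, by positivity, ξ, h1, ?_, ?_⟩
  · intro y w hw
    have : (X.skel.dist y w : ℝ) ≤ S := by exact_mod_cast h2 y w hw
    linarith
  · intro y z hyz
    have hwalk : ∀ {a b : V} (p : X.skel.Walk a b), ‖ξ a - ξ b‖ ≤ p.length * (ε / (R + 1)) := by
      intro a b p
      induction p with
      | nil => simp
      | @cons a c b hac q ih =>
        have e : ξ a - ξ b = (ξ a - ξ c) + (ξ c - ξ b) := by abel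
        rw [e, SimpleGraph.Walk.length_cons]
        refine (norm_add_le _ _).trans ?_
        have := h3 a c hac
        push_cast
        linarith
    obtain ⟨p, hp⟩ := hX.connected.exists_walk_length_eq_dist y z
    have h5 := hwalk p
    rw [hp] at h5
    refine h5.trans ?_
    calc (X.skel.dist y z : ℝ) * (ε / (R + 1)) ≤ R * (ε / (R + 1)) :=
          mul_le_mul_of_nonneg_right hyz (by positivity)
      _ ≤ (R + 1) * (ε / (R + 1)) := mul_le_mul_of_nonneg_right (by linarith) (by positivity)
      _ = ε := by field_simp

end Pool.Agent.Results.MP_e4602c_al.SystolicPropertyA
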